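import Pool.Agent.J4H20.TR.Stm
import Pool.Agent.W405.CG.Loc

/-!
# Project TR2 of helper20: (LOC), the valuations (helper21)
-/

set_option autoImplicit false

namespace Pool.Agent.J4H21.TR

open Polynomial NumberField nonZeroDivisors WithZero Pool.Agent.J4H20.TR
open Pool.Agent.W405.CG (one_of_mul aeval_le coprime_val)

theorem t_LOC : S_LOC := by
  intro n k D K _ _ θ c M hM hcop hdiv hθ hne i j v
  set w := v.valuation K with hw
  have hint : ∀ a : ℤ, w (a : K) ≤ 1 := by
    intro a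
    have := v.valuation_le_one (K := K) (a : 𝓞 K)
    simpa using this
  have hE : 2 * (c : K) * M * aeval θ D.g - (M : K) ^ 2 * aeval θ D.r + (c : K) ^ 2 = 0 := by
    have h1 := hθ
    simp only [hh, map_add, map_sub, map_mul, aeval_C] at h1
    simpa using h1
  have hf : ∏ l, (θ - (D.a l : K)) = aeval θ D.g ^ 2 + aeval θ D.r := by
    have h1 := congrArg (aeval θ) D.hf
    rw [map_prod, map_add, map_pow] at h1
    rw [← h1]
    refine Finset.prod_congr rfl fun l _ => ?_
    simp
  have hsq : ((M : K) * aeval θ D.g + c) ^ 2 = (M : K) ^ 2 * ∏ l, (θ - (D.a l : K)) := by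
    rw [hf]
    linear_combination hE
  have hbig : 1 < w θ → ∃ z : ℤ, w ((θ - (D.a i : K)) / (θ - (D.a j : K))) = exp (((2 : ℕ) : ℤ) * z) := by
    intro h
    have hpt : ∀ l, w (θ - (D.a l : K)) = w θ := fun l =>
      w.map_sub_eq_of_lt_left ((hint _).trans_lt h)
    refine ⟨0, ?_⟩
    have hne0 : w θ ≠ 0 := (zero_lt_one.trans h).ne'
    rw [map_div₀, hpt, hpt, div_self hne0, mul_zero, exp_zero]
  rcases lt_or_ge 1 (w θ) with hbig1 | hθ1
  · exact hbig hbig1
  have hgle : w (aeval θ D.g) ≤ 1 := aeval_le hint hθ1 _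
  have hrle : w (aeval θ D.r) ≤ 1 := aeval_le hint hθ1 _
  have hMw : w (M : K) = 1 := by
    by_contra hMne
    have hMlt : w (M : K) < 1 := lt_of_le_of_ne (hint M) hMne
    have h1 : (c : K) ^ 2 = (M : K) * ((M : K) * aeval θ D.r - ((2 * c : ℤ) : K) * aeval θ D.g) := by
      push_cast
      linear_combination hE
    have h2 : w ((M : K) * aeval θ D.r - ((2 * c : ℤ) : K) * aeval θ D.g) ≤ 1 := by
      refine w.map_sub_le ?_ ?_
      · rw [map_mul]; exact mul_le_one' (hint M) hrle
      · rw [map_mul]; exact mul_le_one' (hint _) hgle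
    have h3 : w (c : K) ^ 2 < 1 := by
      rw [← map_pow, h1, map_mul]
      exact mul_lt_one_of_lt_of_le hMlt h2
    have h4 : w (c : K) < 1 := by
      refine lt_of_le_of_ne (hint c) fun h5 => ?_
      rw [h5, one_pow] at h3
      exact lt_irrefl _ h3
    exact coprime_val hint hcop h4 hMlt
  have hpt : ∀ l, ∃ z : ℤ, w (θ - (D.a l : K)) = exp (((2 : ℕ) : ℤ) * z) := by
    intro l
    by_cases h1 : w (θ - (D.a l : K)) = 1
    · exact ⟨0, by rw [h1, mul_zero, exp_zero]⟩
    have hlt : w (θ - (D.a l : K)) < 1 := lt_of_le_of_ne (w.map_sub_le hθ1 (hint _)) h1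
    have hoth : ∀ m, m ≠ l → w (θ - (D.a m : K)) = 1 := by
      intro m hm
      obtain ⟨t, ht⟩ := hdiv l m (Ne.symm hm)
      have h2 : w ((D.a l - D.a m : ℤ) : K) = 1 := by
        refine one_of_mul w (hint _) (hint t) ?_
        rw [← map_mul, ← Int.cast_mul, ← ht, hMw]
      have e : θ - (D.a m : K) = ((D.a l - D.a m : ℤ) : K) + (θ - (D.a l : K)) := by
        push_cast
        ring
      rw [e, w.map_add_eq_of_lt_left (by rw [h2]; exact hlt), h2]
    have h3 : w ((M : K) * aeval θ D.g + c) ^ 2 = w (θ - (D.a l : K)) := by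
      rw [← map_pow, hsq, map_mul, map_pow, hMw, one_pow, one_mul, map_prod,
        ← Finset.mul_prod_erase Finset.univ _ (Finset.mem_univ l),
        Finset.prod_eq_one (fun m hm => hoth m (Finset.ne_of_mem_erase hm)), mul_one]
    have h4 : w ((M : K) * aeval θ D.g + c) ≠ 0 := by
      intro h5
      rw [h5, zero_pow two_ne_zero] at h3
      exact (w.ne_zero_iff.mpr (hne l)) h3.symm
    refine ⟨log (w ((M : K) * aeval θ D.g + c)), ?_⟩
    rw [← h3]
    conv_lhs => rw [← exp_log h4]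
    rw [← exp_nsmul, nsmul_eq_mul]
  obtain ⟨z, hz⟩ := hpt i
  obtain ⟨z', hz'⟩ := hpt j
  refine ⟨z - z', ?_⟩
  rw [map_div₀, hz, hz', mul_sub, exp_sub]

end Pool.Agent.J4H21.TR
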